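import Pool.Agent.BC.Stmts

/-!
# BC, module BAS: the basic sequence and the separation of the limit tree
-/

set_option autoImplicit false

open Finset MeasureTheory Filter Topology

noncomputable section

namespace Pool.Agent.BC.H8

/-! ### arithmetic of the times -/

theorem pow_log_le {t : ℕ} (ht : 1 ≤ t) : 2 ^ Nat.log 2 t ≤ t :=
  Nat.pow_log_le_self 2 (by omega)

theorem lt_pow_log (t : ℕ) : t < 2 ^ (Nat.log 2 t + 1) :=
  Nat.lt_pow_succ_log_self (by norm_num) t

theorem sc_lt {t : ℕ} (ht : 1 ≤ t) : sc t < t := by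
  have : 0 < 2 ^ Nat.log 2 t := by positivity
  unfold sc; omega

theorem sc_add {t : ℕ} (ht : 1 ≤ t) : sc t + 2 ^ Nat.log 2 t = t := by
  have := pow_log_le ht
  unfold sc; omega

theorem sc_lt_pow {t : ℕ} (ht : 1 ≤ t) : sc t < 2 ^ Nat.log 2 t := by
  have h1 := pow_log_le ht
  have h2 := lt_pow_log t
  rw [pow_succ] at h2
  unfold sc; omega

theorem log_eq {k j : ℕ} (hj : j < 2 ^ k) : Nat.log 2 (2 ^ k + j) = k := by
  apply Nat.log_eq_of_pow_le_of_lt_pow
  · omega
  · rw [pow_succ]; omega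

theorem sc_eq {k j : ℕ} (hj : j < 2 ^ k) : sc (2 ^ k + j) = j := by
  unfold sc
  rw [log_eq hj]
  omega

/-- the logarithm of `t + 1` -/
theorem log_succ {t : ℕ} (ht : 1 ≤ t) :
    (Nat.log 2 (t + 1) = Nat.log 2 t ∧ t + 1 < 2 ^ (Nat.log 2 t + 1)) ∨
      (Nat.log 2 (t + 1) = Nat.log 2 t + 1 ∧ t + 1 = 2 ^ (Nat.log 2 t + 1)) := by
  have h1 := pow_log_le ht
  have h2 := lt_pow_log t
  rcases Nat.lt_or_ge (t + 1) (2 ^ (Nat.log 2 t + 1)) with h | h
  · left
    refine ⟨?_, h⟩
    apply Nat.log_eq_of_pow_le_of_lt_pow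
    · omega
    · exact h
  · right
    have h3 : t + 1 = 2 ^ (Nat.log 2 t + 1) := by omega
    refine ⟨?_, h3⟩
    apply Nat.log_eq_of_pow_le_of_lt_pow
    · omega
    · rw [pow_succ 2 (Nat.log 2 t + 1)]
      omega

theorem lev_sc {t : ℕ} (ht : 1 ≤ t) : lev t (sc t) = Nat.log 2 t := by
  have h := sc_lt_pow ht
  unfold lev
  rw [if_neg (by omega)]

/-- the two new leaves and the others at the time `t + 1` -/
theorem lev_succ_sc {t : ℕ} (ht : 1 ≤ t) : lev (t + 1) (sc t) = Nat.log 2 t + 1 := by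
  have h1 := sc_lt_pow ht
  have h2 := sc_add ht
  have h5 : 2 ^ (Nat.log 2 t + 1) = 2 * 2 ^ Nat.log 2 t := by rw [pow_succ]; ring
  rcases log_succ ht with ⟨h3, h4⟩ | ⟨h3, h4⟩
  · unfold lev
    rw [h3, if_pos]
    left
    unfold sc at h2 ⊢
    rw [h3]
    omega
  · unfold lev
    have h6 : sc (t + 1) = 0 := by
      unfold sc
      rw [h3]
      omega
    rw [h3, h6, if_neg]
    omega

theorem lev_succ_self {t : ℕ} (ht : 1 ≤ t) : lev (t + 1) t = Nat.log 2 t + 1 := by
  have h1 := sc_lt_pow ht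
  have h2 := sc_add ht
  have h5 : 2 ^ (Nat.log 2 t + 1) = 2 * 2 ^ Nat.log 2 t := by rw [pow_succ]; ring
  rcases log_succ ht with ⟨h3, h4⟩ | ⟨h3, h4⟩
  · unfold lev
    rw [h3, if_pos]
    right
    omega
  · unfold lev
    have h6 : sc (t + 1) = 0 := by
      unfold sc
      rw [h3]
      omega
    rw [h3, h6, if_neg]
    omega

theorem lev_succ_other {t i : ℕ} (ht : 1 ≤ t) (hi : i < t) (hne : i ≠ sc t) :
    lev (t + 1) i = lev t i := by
  have h1 := sc_lt_pow ht
  have h2 := sc_add ht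
  have h5 : 2 ^ (Nat.log 2 t + 1) = 2 * 2 ^ Nat.log 2 t := by rw [pow_succ]; ring
  rcases log_succ ht with ⟨h3, h4⟩ | ⟨h3, h4⟩
  · have h6 : sc (t + 1) = sc t + 1 := by
      have h7 : sc (t + 1) = t + 1 - 2 ^ Nat.log 2 t := by
        unfold sc
        rw [h3]
      omega
    unfold lev
    rw [h3, h6]
    by_cases hh : i < sc t ∨ 2 ^ Nat.log 2 t ≤ i
    · rw [if_pos hh, if_pos (by omega)]
    · rw [if_neg hh, if_neg (by omega)]
  · have h6 : sc (t + 1) = 0 := by
      unfold sc
      rw [h3]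
      omega
    unfold lev
    rw [h3, h6, if_neg (by omega), if_pos (by omega)]

section

variable {X : Type} [NormedAddCommGroup X] [NormedSpace ℝ X]

/-- splitting the leaf `sc t` -/
theorem sum_II {t : ℕ} (ht : 1 ≤ t) (Y : ℕ → ℕ → X)
    (hY : ∀ k j, j < 2 ^ k → Y k j = (2 : ℝ)⁻¹ • (Y (k + 1) j + Y (k + 1) (j + 2 ^ k)))
    (a : ℕ → ℝ) :
    ∑ i ∈ range (t + 1), II t a i • Y (lev (t + 1) i) i = ∑ i ∈ range t, a i • Y (lev t i) i := by
  have hs := sc_lt ht
  have hsm : sc t ∈ range t := mem_range.2 hs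
  rw [sum_range_succ, ← add_sum_erase (range t) _ hsm, ← add_sum_erase (range t) _ hsm]
  have e1 : ∑ i ∈ (range t).erase (sc t), II t a i • Y (lev (t + 1) i) i =
      ∑ i ∈ (range t).erase (sc t), a i • Y (lev t i) i := by
    apply sum_congr rfl
    intro i hi
    rw [mem_erase, mem_range] at hi
    rw [lev_succ_other ht hi.2 hi.1]
    unfold II
    rw [if_neg (by omega)]
  rw [e1]
  have e2 : II t a (sc t) = a (sc t) / 2 := by
    unfold II
    rw [if_pos (Or.inl rfl)]
  have e3 : II t a t = a (sc t) / 2 := by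
    unfold II
    rw [if_pos (Or.inr rfl)]
  rw [e2, e3, lev_succ_sc ht, lev_succ_self ht, lev_sc ht, hY _ _ (sc_lt_pow ht), sc_add ht]
  module

/-- the coefficients in the leaves -/
def A (β : ℕ → ℝ) : ℕ → ℕ → ℝ
  | 0 => β
  | t + 1 => if t = 0 then β else
      fun i => II t (A β t) i + β t * ((if i = sc t then 1 else 0) - if i = t then 1 else 0)

theorem A_succ (β : ℕ → ℝ) {t : ℕ} (ht : 1 ≤ t) (i : ℕ) : A β (t + 1) i =
    II t (A β t) i + β t * ((if i = sc t then 1 else 0) - if i = t then 1 else 0) := by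
  rw [A, if_neg (by omega)]

theorem sum_single_sub {t : ℕ} (ht : 1 ≤ t) (y : ℕ → X) (b : ℝ) :
    ∑ i ∈ range (t + 1), (b * ((if i = sc t then 1 else 0) - if i = t then 1 else 0)) • y i =
      b • (y (sc t) - y t) := by
  have hs := sc_lt ht
  have e : ∀ i ∈ range (t + 1),
      (b * ((if i = sc t then (1 : ℝ) else 0) - if i = t then 1 else 0)) • y i =
      (if i = sc t then b • y i else 0) - (if i = t then b • y i else 0) := by
    intro i _
    by_cases h1 : i = sc t
    · simp [h1, hs.ne]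
    · by_cases h2 : i = t
      · have h3 : t ≠ sc t := by omega
        simp [h2, h3]
      · simp [h1, h2]
  rw [sum_congr rfl e, sum_sub_distrib, sum_ite_eq', sum_ite_eq', if_pos (by simp; omega),
    if_pos (by simp), smul_sub]

theorem sum_A (Y : ℕ → ℕ → X)
    (hY : ∀ k j, j < 2 ^ k → Y k j = (2 : ℝ)⁻¹ • (Y (k + 1) j + Y (k + 1) (j + 2 ^ k)))
    (β : ℕ → ℝ) : ∀ t : ℕ, 1 ≤ t →
      ∑ i ∈ range t, β i • bs Y i = ∑ i ∈ range t, A β t i • Y (lev t i) i := by
  intro t ht
  induction t, ht using Nat.le_induction with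
  | base =>
    have h0 : lev 1 0 = 0 := by
      have : sc 1 = 0 := by simp [sc]
      simp [lev, this]
    simp [A, bs, h0]
  | succ t ht ih =>
    rw [sum_range_succ, ih]
    have e : ∀ i ∈ range (t + 1), A β (t + 1) i • Y (lev (t + 1) i) i =
        II t (A β t) i • Y (lev (t + 1) i) i +
        (β t * ((if i = sc t then 1 else 0) - if i = t then 1 else 0)) • Y (lev (t + 1) i) i := by
      intro i _
      rw [A_succ β ht, add_smul]
    rw [sum_congr rfl e, sum_add_distrib, sum_II ht Y hY,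
      sum_single_sub ht (fun i => Y (lev (t + 1) i) i), lev_succ_sc ht, lev_succ_self ht]
    unfold bs
    rw [if_neg (by omega)]

theorem RR_A (β : ℕ → ℝ) {t i : ℕ} (ht : 1 ≤ t) (hi : i < t) :
    RR t (A β (t + 1)) i = A β t i := by
  have hs := sc_lt ht
  unfold RR
  rw [A_succ β ht, A_succ β ht]
  unfold II
  by_cases h : i = sc t
  · subst h
    have h2 : sc t ≠ t := hs.ne
    simp [h2, h2.symm]
    ring
  · have h2 : i ≠ t := hi.ne
    simp [h, h2]

theorem L_RR_A (v : ℕ → ℕ → X) (β : ℕ → ℝ) {t : ℕ} (ht : 1 ≤ t) :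
    L v t (RR t (A β (t + 1))) = L v t (A β t) := by
  unfold L
  apply sum_congr rfl
  intro i hi
  rw [RR_A β ht (mem_range.1 hi)]

theorem lo_iter {v : ℕ → ℕ → X} {δ M ρ : ℝ} {ε : ℕ → ℝ} (hε : ∀ t, 0 < ε t)
    (hS : Sys v δ ε M ρ) (β : ℕ → ℝ) {m n : ℕ} (hm : 1 ≤ m) (hmn : m ≤ n) :
    ‖L v m (A β m)‖ ≤ (∏ i ∈ Ico m n, (1 + ε i)) * ‖L v n (A β n)‖ := by
  induction n, hmn using Nat.le_induction with
  | base => simp
  | succ n hmn ih =>
    refine ih.trans ?_
    have h := hS.lo n (hm.trans hmn) (A β (n + 1))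
    rw [L_RR_A v β (hm.trans hmn)] at h
    have hp : 0 ≤ ∏ i ∈ Ico m n, (1 + ε i) := prod_nonneg fun i _ => by
      have := hε i
      positivity
    rw [prod_Ico_succ_top hmn, mul_assoc]
    exact mul_le_mul_of_nonneg_left h hp

end

/-- BAS. -/
theorem bas : BasStmt := by
  intro X _ _ v δ M ρ P ε Y hδ hε hP hS hY hE
  have hP1 : 1 ≤ P := by simpa using hP 0 0
  have hP0 : 0 < P := by linarith
  -- the separation at the time `t + 1`
  have sepb : ∀ t, 1 ≤ t → δ / P ≤ ‖bs Y t‖ := by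
    intro t ht
    have hs := sc_lt ht
    set a : ℕ → ℝ := fun i => 1 * ((if i = sc t then 1 else 0) - if i = t then 1 else 0) with ha
    have h1 := hS.sep (t + 1) (by omega) a t (by omega)
    have h2 := (hE (t + 1) a (by omega)).1
    have h3 : ∑ i ∈ range (t + 1), a i • Y (lev (t + 1) i) i = bs Y t := by
      rw [ha, sum_single_sub ht (fun i => Y (lev (t + 1) i) i) 1, lev_succ_sc ht,
        lev_succ_self ht, one_smul]
      unfold bs
      rw [if_neg (by omega)]
    rw [h3] at h2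
    have h4 : |a t| = 1 := by
      have : t ≠ sc t := hs.ne'
      simp [ha, this]
    rw [h4, mul_one] at h1
    rw [div_le_iff₀ hP0]
    linarith [mul_comm P ‖bs Y t‖]
  have bnz : ∀ t, bs Y t ≠ 0 := by
    intro t h0
    rcases Nat.eq_zero_or_pos t with ht | ht
    · subst ht
      have h1 := hS.sep 1 le_rfl (fun _ => 1) 0 (by norm_num)
      have h2 := (hE 1 (fun _ => 1) le_rfl).1
      have h3 : lev 1 0 = 0 := by
        have : sc 1 = 0 := by simp [sc]
        simp [lev, this]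
      have h4 : Y 0 0 = 0 := by simpa [bs] using h0
      simp only [range_one, sum_singleton, h3, h4, smul_zero, norm_zero, mul_zero] at h2
      simp only [abs_one, mul_one] at h1
      linarith
    · have h1 := sepb t ht
      rw [h0, norm_zero] at h1
      have : 0 < δ / P := by positivity
      linarith
  have bseq : ∀ k j, j < 2 ^ k → bs Y (2 ^ k + j) = Y (k + 1) j - Y (k + 1) (j + 2 ^ k) := by
    intro k j hj
    have h0 : 2 ^ k + j ≠ 0 := by
      have : 0 < 2 ^ k := by positivity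
      omega
    unfold bs
    rw [if_neg h0, log_eq hj, sc_eq hj, add_comm (2 ^ k) j]
  refine ⟨?_, bnz, ?_, ?_⟩
  · intro β m n hmn
    rcases Nat.eq_zero_or_pos m with hm | hm
    · subst hm
      simp only [range_zero, sum_empty, norm_zero]
      positivity
    · have hn : 1 ≤ n := by omega
      rw [sum_A Y hY β m hm, sum_A Y hY β n hn]
      have h1 := (hE m (A β m) hm).2
      have h2 := lo_iter hε hS β hm hmn
      have h3 := (hE n (A β n) hn).1
      have h4 := hP m n
      calc ‖∑ i ∈ range m, A β m i • Y (lev m i) i‖ ≤ P * ‖L v m (A β m)‖ := h1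
        _ ≤ P * ((∏ i ∈ Ico m n, (1 + ε i)) * ‖L v n (A β n)‖) :=
            mul_le_mul_of_nonneg_left h2 hP0.le
        _ ≤ P * (P * ‖L v n (A β n)‖) := by gcongr
        _ ≤ P * (P * (P * ‖∑ i ∈ range n, A β n i • Y (lev n i) i‖)) := by gcongr
        _ = P ^ 3 * ‖∑ i ∈ range n, A β n i • Y (lev n i) i‖ := by ring
  · intro k
    induction k with
    | zero =>
      intro j hj
      have : j = 0 := by simpa using hj
      subst this
      exact Submodule.subset_span ⟨0, by simp [bs]⟩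
    | succ k ih =>
      intro j hj
      rw [pow_succ] at hj
      rcases Nat.lt_or_ge j (2 ^ k) with hjk | hjk
      · have h1 := ih j hjk
        have h2 : bs Y (2 ^ k + j) ∈ Submodule.span ℝ (Set.range (bs Y)) :=
          Submodule.subset_span ⟨_, rfl⟩
        have h3 : Y (k + 1) j = Y k j + (2 : ℝ)⁻¹ • bs Y (2 ^ k + j) := by
          rw [bseq k j hjk, hY k j hjk]
          module
        rw [h3]
        exact Submodule.add_mem _ h1 (Submodule.smul_mem _ _ h2)
      · obtain ⟨i, rfl⟩ : ∃ i, j = i + 2 ^ k := ⟨j - 2 ^ k, by omega⟩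
        have hi : i < 2 ^ k := by omega
        have h1 := ih i hi
        have h2 : bs Y (2 ^ k + i) ∈ Submodule.span ℝ (Set.range (bs Y)) :=
          Submodule.subset_span ⟨_, rfl⟩
        have h3 : Y (k + 1) (i + 2 ^ k) = Y k i - (2 : ℝ)⁻¹ • bs Y (2 ^ k + i) := by
          rw [bseq k i hi, hY k i hi]
          module
        rw [h3]
        exact Submodule.sub_mem _ h1 (Submodule.smul_mem _ _ h2)
  · intro k j hj
    rw [← bseq k j hj]
    apply sepb
    have : 0 < 2 ^ k := by positivity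
    omega

end Pool.Agent.BC.H8
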