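import Pool.Agent.Helper8_BC.BAS

/-!
# BC, module WGT: the weights and the splitting
-/

set_option autoImplicit false

open Finset MeasureTheory Filter Topology

noncomputable section

namespace Pool.Agent.BC.H8

theorem mod_self_sc {t k₀ : ℕ} (ht : 1 ≤ t) (hk : k₀ ≤ Nat.log 2 t) :
    t % 2 ^ k₀ = sc t % 2 ^ k₀ := by
  have h1 := sc_add ht
  obtain ⟨c, hc⟩ := pow_dvd_pow 2 hk
  rw [hc] at h1
  conv_lhs => rw [← h1]
  rw [Nat.add_mul_mod_self_left]

theorem wg_split {t k₀ : ℕ} (j₀ i : ℕ) (ht : 1 ≤ t) (hk : k₀ ≤ Nat.log 2 t) (hi : i < t + 1) :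
    II t (wg t k₀ j₀) i = wg (t + 1) k₀ j₀ i := by
  unfold II wg
  have hp : ((1 : ℝ) / 2) ^ (Nat.log 2 t - k₀) / 2 = (1 / 2) ^ (Nat.log 2 t + 1 - k₀) := by
    rw [show Nat.log 2 t + 1 - k₀ = (Nat.log 2 t - k₀) + 1 from by omega, pow_succ]
    ring
  by_cases h : i = sc t ∨ i = t
  · rw [if_pos h]
    have h1 : i % 2 ^ k₀ = sc t % 2 ^ k₀ := by
      rcases h with h | h
      · rw [h]
      · rw [h, mod_self_sc ht hk]
    have h2 : lev (t + 1) i = Nat.log 2 t + 1 := by
      rcases h with h | h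
      · rw [h, lev_succ_sc ht]
      · rw [h, lev_succ_self ht]
    rw [h1, h2, lev_sc ht]
    by_cases h3 : sc t % 2 ^ k₀ = j₀
    · rw [if_pos h3, if_pos h3, hp]
    · rw [if_neg h3, if_neg h3, zero_div]
  · rw [if_neg h, lev_succ_other ht (by omega) (by omega)]

/-- WGT. -/
theorem wgt : WgtStmt := by
  refine ⟨?_, ?_, ?_⟩
  · intro k k₀ j₀ i hi
    have h1 : Nat.log 2 (2 ^ k) = k := Nat.log_pow (by norm_num) k
    have h2 : sc (2 ^ k) = 0 := by
      unfold sc
      rw [h1]
      omega
    have h3 : lev (2 ^ k) i = k := by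
      unfold lev
      rw [h1, h2, if_neg (by omega)]
    unfold wg wt
    rw [h3]
  · intro t k₀ j₀ i ht hk hi
    exact wg_split j₀ i ht hk hi
  · intro τ k₀ j₀ hk
    funext i
    have h1 := wg_split j₀ (i : ℕ) (t := τ + 1) (by omega) hk i.isLt
    rw [← h1]
    unfold II io
    induction i using Fin.lastCases with
    | last =>
      have h2 : pr (sF τ) (Fin.last (τ + 1)) = sF τ := by simp [pr]
      rw [h2, if_pos rfl, if_pos (Or.inr (by simp))]
      rfl
    | cast j =>
      have h2 : pr (sF τ) j.castSucc = j := by simp [pr]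
      rw [h2]
      by_cases h3 : j = sF τ
      · rw [if_pos h3, if_pos]
        · rfl
        · left
          rw [h3]
          rfl
      · rw [if_neg h3, if_neg]
        · rfl
        · intro h4
          rcases h4 with h4 | h4
          · exact h3 (Fin.ext h4)
          · have := j.isLt
            simp at h4
            omega

end Pool.Agent.BC.H8
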